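import Mathlib

set_option autoImplicit false

/-!
# A Sylow `2`-subgroup with a coset without elements of odd order, and the permutation module

Helper file for `Pool.Agent.Results.MP_d5772f_al.AlmostAllCosets`.
-/

namespace Pool.Agent.KS6_71.PG

open Matrix

/-! ### Part 1: the permutation-module construction

For a subgroup `S` of odd index and of `2`-power order of a finite group `H`, let `H` act on the
elementary abelian group `V = (ZMod 2)^(H ⧸ S)` by permuting the coordinates, and let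
`G = V ⋊ H`. The involution `e_S` of `V` is central in the Sylow `2`-subgroup `V ⋊ S` of `G`, and its
centralizer in `G` is `V ⋊ S`. Hence the statement for `G` implies that every coset of `S` in `H`
contains an element of odd order. -/

section Reduction

variable {H : Type} [Group H]

/-- The elementary abelian group with coordinates indexed by the cosets of `S`. -/
abbrev V (S : Subgroup H) : Type := (H ⧸ S) → Multiplicative (ZMod 2)

/-- `H` permutes the coordinates. -/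
abbrev act (S : Subgroup H) : H →* MulAut (V S) := mulAutArrow

/-- The semidirect product. -/
abbrev W (S : Subgroup H) : Type := V S ⋊[act S] H

lemma ofAdd_one_ne : Multiplicative.ofAdd (1 : ZMod 2) ≠ 1 := by decide

open Classical in
/-- The indicator of the trivial coset. -/
noncomputable def ind (S : Subgroup H) : V S :=
  fun x => if x = ((1 : H) : H ⧸ S) then Multiplicative.ofAdd 1 else 1

lemma ind_sq (S : Subgroup H) (v : V S) : v ^ 2 = 1 := by
  funext x
  have : ∀ a : Multiplicative (ZMod 2), a ^ 2 = 1 := by decide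
  simpa using this (v x)

lemma act_ind_iff (S : Subgroup H) (h : H) : act S h (ind S) = ind S ↔ h ∈ S := by
  constructor
  · intro hh
    have h1 := congrFun hh ((h : H) : H ⧸ S)
    have h2 : (act S h (ind S)) ((h : H) : H ⧸ S) = ind S (h⁻¹ • ((h : H) : H ⧸ S)) := rfl
    rw [h2] at h1
    have h3 : (h⁻¹ • ((h : H) : H ⧸ S)) = ((1 : H) : H ⧸ S) := by
      change ((h⁻¹ * h : H) : H ⧸ S) = _
      simp
    rw [h3] at h1
    simp only [ind, if_true] at h1
    by_contra hn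
    rw [if_neg] at h1
    · exact absurd h1 ofAdd_one_ne
    · intro hc
      apply hn
      have := QuotientGroup.eq.1 hc
      simpa using this
  · intro hh
    funext x
    change ind S (h⁻¹ • x) = ind S x
    have h3 : (h • ((1 : H) : H ⧸ S)) = ((1 : H) : H ⧸ S) := by
      change ((h * 1 : H) : H ⧸ S) = _
      rw [QuotientGroup.eq]
      simpa using hh
    have : (h⁻¹ • x = ((1 : H) : H ⧸ S)) ↔ (x = ((1 : H) : H ⧸ S)) := by
      rw [inv_smul_eq_iff, h3]
    by_cases hx : x = ((1 : H) : H ⧸ S)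
    · have h4 := this.2 hx
      simp only [ind]
      rw [if_pos h4, if_pos hx]
    · have h4 : ¬ (h⁻¹ • x = ((1 : H) : H ⧸ S)) := fun h5 => hx (this.1 h5)
      simp only [ind]
      rw [if_neg h4, if_neg hx]

end Reduction

/-! ### Part 2: a coset of a Sylow `2`-subgroup without elements of odd order

The group is `GL₂(𝔽₃₇)` and the Sylow `2`-subgroup `S` consists of the 32 monomial matrices whose
nonzero entries are fourth roots of unity. -/

section Paige

instance fact37 : Fact (Nat.Prime 37) := ⟨by norm_num⟩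

/-- `M` is monomial with nonzero entries of order dividing four. -/
def Mono (M : Matrix (Fin 2) (Fin 2) (ZMod 37)) : Prop :=
  (M 0 1 = 0 ∧ M 1 0 = 0 ∧ M 0 0 ^ 4 = 1 ∧ M 1 1 ^ 4 = 1) ∨
  (M 0 0 = 0 ∧ M 1 1 = 0 ∧ M 0 1 ^ 4 = 1 ∧ M 1 0 ^ 4 = 1)

lemma Mono.one : Mono 1 := by
  left
  simp

lemma Mono.mul {M N : Matrix (Fin 2) (Fin 2) (ZMod 37)} (hM : Mono M) (hN : Mono N) :
    Mono (M * N) := by
  rcases hM with ⟨a1, a2, a3, a4⟩ | ⟨a1, a2, a3, a4⟩ <;>
  rcases hN with ⟨b1, b2, b3, b4⟩ | ⟨b1, b2, b3, b4⟩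
  · left
    simp [Matrix.mul_apply, Fin.sum_univ_two, mul_pow, a1, a2, a3, a4, b1, b2, b3, b4]
  · right
    simp [Matrix.mul_apply, Fin.sum_univ_two, mul_pow, a1, a2, a3, a4, b1, b2, b3, b4]
  · right
    simp [Matrix.mul_apply, Fin.sum_univ_two, mul_pow, a1, a2, a3, a4, b1, b2, b3, b4]
  · left
    simp [Matrix.mul_apply, Fin.sum_univ_two, mul_pow, a1, a2, a3, a4, b1, b2, b3, b4]

lemma Mono.pow {M : Matrix (Fin 2) (Fin 2) (ZMod 37)} (hM : Mono M) (n : ℕ) : Mono (M ^ n) := by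
  induction n with
  | zero => simpa using Mono.one
  | succ n ih => rw [pow_succ]; exact ih.mul hM

lemma Mono.pow_eight {M : Matrix (Fin 2) (Fin 2) (ZMod 37)} (hM : Mono M) : M ^ 8 = 1 := by
  have key : ∀ a d : ZMod 37, a ^ 4 = 1 → d ^ 4 = 1 → (!![a, 0; 0, d] : Matrix _ _ _) ^ 4 = 1 := by
    intro a d ha hd
    have h2 : (!![a, 0; 0, d] : Matrix (Fin 2) (Fin 2) (ZMod 37)) ^ 2 = !![a ^ 2, 0; 0, d ^ 2] := by
      rw [pow_two, Matrix.mul_fin_two]
      simp [pow_two]
    have h4 : (!![a, 0; 0, d] : Matrix (Fin 2) (Fin 2) (ZMod 37)) ^ 4 = !![a ^ 4, 0; 0, d ^ 4] := by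
      rw [show (4 : ℕ) = 2 * 2 from rfl, pow_mul, h2, pow_two, Matrix.mul_fin_two]
      simp only [mul_zero, add_zero, zero_mul, zero_add]
      rw [← pow_two, ← pow_two, ← pow_mul, ← pow_mul]
    rw [h4, ha, hd, Matrix.one_fin_two]
  rcases hM with ⟨a1, a2, a3, a4⟩ | ⟨a1, a2, a3, a4⟩
  · rw [Matrix.eta_fin_two M, a1, a2, show (8 : ℕ) = 4 * 2 from rfl, pow_mul, key _ _ a3 a4,
      one_pow]
  · have h2 : M ^ 2 = !![M 0 1 * M 1 0, 0; 0, M 1 0 * M 0 1] := by
      conv_lhs => rw [Matrix.eta_fin_two M, a1, a2]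
      rw [pow_two, Matrix.mul_fin_two]
      simp
    rw [show (8 : ℕ) = 2 * 4 from rfl, pow_mul, h2]
    apply key
    · rw [mul_pow, a3, a4, one_mul]
    · rw [mul_pow, a3, a4, one_mul]

/-- The monomial `2`-subgroup. -/
def S : Subgroup (GL (Fin 2) (ZMod 37)) where
  carrier := {g | Mono (g : Matrix (Fin 2) (Fin 2) (ZMod 37))}
  mul_mem' := by
    intro a b ha hb
    change Mono ((a * b : GL (Fin 2) (ZMod 37)) : Matrix (Fin 2) (Fin 2) (ZMod 37))
    rw [Units.val_mul]
    exact Mono.mul ha hb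
  one_mem' := by
    change Mono ((1 : GL (Fin 2) (ZMod 37)) : Matrix (Fin 2) (Fin 2) (ZMod 37))
    rw [Units.val_one]
    exact Mono.one
  inv_mem' := by
    intro a ha
    have h8 : a ^ 8 = 1 := by
      apply Units.ext
      rw [Units.val_pow_eq_pow_val, Units.val_one]
      exact Mono.pow_eight ha
    have h7 : a⁻¹ = a ^ 7 := by
      rw [inv_eq_iff_mul_eq_one, ← pow_succ', h8]
    change Mono ((a⁻¹ : GL (Fin 2) (ZMod 37)) : Matrix (Fin 2) (Fin 2) (ZMod 37))
    rw [h7, Units.val_pow_eq_pow_val]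
    exact Mono.pow ha 7

lemma mem_S {g : GL (Fin 2) (ZMod 37)} :
    g ∈ S ↔ Mono (g : Matrix (Fin 2) (Fin 2) (ZMod 37)) := Iff.rfl

lemma S_pgroup : IsPGroup 2 S := by
  rintro ⟨x, hx⟩
  refine ⟨3, ?_⟩
  ext1
  rw [Subgroup.coe_pow, Subgroup.coe_one]
  apply Units.ext
  rw [Units.val_pow_eq_pow_val, Units.val_one]
  exact Mono.pow_eight hx

/-- The 32 matrices. -/
def mat (x : Fin 4 × Fin 4 × Bool) : Matrix (Fin 2) (Fin 2) (ZMod 37) :=
  if x.2.2 then !![6 ^ x.1.val, 0; 0, 6 ^ x.2.1.val] else !![0, 6 ^ x.1.val; 6 ^ x.2.1.val, 0]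

lemma mat_mono (x : Fin 4 × Fin 4 × Bool) : Mono (mat x) := by
  have h6 : ∀ n : ℕ, ((6 : ZMod 37) ^ n) ^ 4 = 1 := by
    intro n
    rw [← pow_mul, mul_comm, pow_mul, show (6 : ZMod 37) ^ 4 = 1 by decide, one_pow]
  obtain ⟨i, j, b⟩ := x
  cases b
  · right
    simp [mat, h6]
  · left
    simp [mat, h6]

lemma mat_inj : Function.Injective mat := by
  have h : ∀ i j i' j' : Fin 4, ∀ b b' : Bool, mat (i, j, b) 0 0 = mat (i', j', b') 0 0 →
      mat (i, j, b) 0 1 = mat (i', j', b') 0 1 → mat (i, j, b) 1 0 = mat (i', j', b') 1 0 →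
      mat (i, j, b) 1 1 = mat (i', j', b') 1 1 → (i, j, b) = (i', j', b') := by
    decide
  rintro ⟨i, j, b⟩ ⟨i', j', b'⟩ hh
  exact h i j i' j' b b' (by rw [hh]) (by rw [hh]) (by rw [hh]) (by rw [hh])

lemma mat_det (x : Fin 4 × Fin 4 × Bool) : (mat x).det ≠ 0 := by
  intro h0
  have h1 : ((mat x) ^ 8).det = 0 := by rw [Matrix.det_pow, h0]; simp
  rw [(mat_mono x).pow_eight, Matrix.det_one] at h1
  exact one_ne_zero h1

lemma card_S_ge : 32 ≤ Nat.card S := by
  have h : Nat.card (Fin 4 × Fin 4 × Bool) ≤ Nat.card S := by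
    apply Nat.card_le_card_of_injective
      (fun x => (⟨Matrix.GeneralLinearGroup.mkOfDetNeZero (mat x) (mat_det x), mat_mono x⟩ : S))
    intro x y hxy
    apply mat_inj
    have := congrArg (fun z : S => ((z : GL (Fin 2) (ZMod 37)) : Matrix (Fin 2) (Fin 2) (ZMod 37)))
      hxy
    exact this
  simpa using h

lemma S_index : ¬ 2 ∣ S.index := by
  intro h2
  obtain ⟨n, hn⟩ := (IsPGroup.iff_card).1 S_pgroup
  have h32 : 32 ≤ 2 ^ n := hn ▸ card_S_ge
  have hn5 : 5 ≤ n := by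
    by_contra hc
    have : 2 ^ n ≤ 2 ^ 4 := Nat.pow_le_pow_right (by norm_num) (by omega)
    omega
  have hd : 32 ∣ Nat.card S := by
    rw [hn]
    exact pow_dvd_pow 2 hn5
  have h64 : 2 * 32 ∣ S.index * Nat.card S := mul_dvd_mul h2 hd
  rw [Subgroup.index_mul_card, Matrix.card_GL_field] at h64
  simp [Fin.prod_univ_two, ZMod.card] at h64

/-- The representative of the coset. -/
def g0M : Matrix (Fin 2) (Fin 2) (ZMod 37) := !![14, 25; 21, 27]

lemma g0_det : g0M.det = 1 := by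
  rw [g0M, Matrix.det_fin_two_of]
  decide

/-- The representative of the coset, as an element of the group. -/
noncomputable def g0 : GL (Fin 2) (ZMod 37) :=
  Matrix.GeneralLinearGroup.mkOfDetNeZero g0M (by rw [g0_det]; exact one_ne_zero)

lemma eig {M : Matrix (Fin 2) (Fin 2) (ZMod 37)} {m : ℕ} (hM : M ^ m = 1) (hm : Odd m)
    {l : ZMod 37} (hl : (M 0 0 - l) * (M 1 1 - l) - M 0 1 * M 1 0 = 0) :
    l ^ 9 = 1 := by
  have h1 : (M - l • (1 : Matrix (Fin 2) (Fin 2) (ZMod 37))).det = 0 := by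
    rw [Matrix.det_fin_two]
    simpa using hl
  obtain ⟨v, hv0, hv⟩ := Matrix.exists_mulVec_eq_zero_iff.2 h1
  have hv1 : M *ᵥ v = l • v := by
    rw [Matrix.sub_mulVec, Matrix.smul_mulVec, Matrix.one_mulVec, sub_eq_zero] at hv
    exact hv
  have hp : ∀ n : ℕ, (M ^ n) *ᵥ v = l ^ n • v := by
    intro n
    induction n with
    | zero => simp
    | succ n ih =>
      rw [pow_succ, ← Matrix.mulVec_mulVec, hv1, Matrix.mulVec_smul, ih, smul_smul, pow_succ,
        mul_comm]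
  have hlm : l ^ m = 1 := by
    have h2 := hp m
    rw [hM, Matrix.one_mulVec] at h2
    have h3 : (l ^ m - 1) • v = 0 := by
      rw [sub_smul, one_smul, ← h2, sub_self]
    rcases smul_eq_zero.1 h3 with h4 | h4
    · exact sub_eq_zero.1 h4
    · exact absurd h4 hv0
  have hl0 : l ≠ 0 := by
    rintro rfl
    rw [zero_pow hm.pos.ne'] at hlm
    exact zero_ne_one hlm
  have h36 : l ^ 36 = 1 := ZMod.pow_card_sub_one_eq_one hl0
  have hg := pow_gcd_eq_one.2 ⟨hlm, h36⟩
  have hcop : Nat.Coprime m 4 := by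
    have : Nat.Coprime m 2 := Nat.coprime_two_right.2 hm
    exact this.pow_right 2
  have hg2 : m.gcd 36 ∣ 9 := by
    have h5 : Nat.Coprime (m.gcd 36) 4 := hcop.coprime_dvd_left (Nat.gcd_dvd_left _ _)
    have h6 : m.gcd 36 ∣ 4 * 9 := Nat.gcd_dvd_right _ _
    exact h5.dvd_of_dvd_mul_left h6
  obtain ⟨k, hk⟩ := hg2
  rw [hk, pow_mul, hg, one_pow]

lemma dec_diag : ∀ a : ZMod 37, a ^ 4 = 1 → ∀ d : ZMod 37, a * d = 1 →
    ∃ l : ZMod 37, (14 * a - l) * (27 * d - l) - (25 * d) * (21 * a) = 0 ∧ l ^ 9 ≠ 1 := by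
  decide

lemma dec_anti : ∀ c : ZMod 37, c ^ 4 = 1 → ∀ b : ZMod 37, -(b * c) = 1 →
    ∃ l : ZMod 37, (25 * c - l) * (21 * b - l) - (14 * b) * (27 * c) = 0 ∧ l ^ 9 ≠ 1 := by
  decide

theorem no_odd (h : GL (Fin 2) (ZMod 37)) (hh : h ∈ S) : ¬ Odd (orderOf (g0 * h)) := by
  intro hodd
  have h1 : (g0 * h) ^ orderOf (g0 * h) = 1 := pow_orderOf_eq_one _
  generalize orderOf (g0 * h) = m at hodd h1
  set N : Matrix (Fin 2) (Fin 2) (ZMod 37) := (h : Matrix (Fin 2) (Fin 2) (ZMod 37)) with hN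
  have h2 : (g0M * N) ^ m = 1 := by
    have := congrArg (fun z : GL (Fin 2) (ZMod 37) => (z : Matrix (Fin 2) (Fin 2) (ZMod 37))) h1
    simp only [Units.val_pow_eq_pow_val, Units.val_mul, Units.val_one] at this
    exact this
  have hdet : (g0M * N).det = N.det := by rw [Matrix.det_mul, g0_det, one_mul]
  have hNm : N.det ^ m = 1 := by
    rw [← hdet, ← Matrix.det_pow, h2, Matrix.det_one]
  have hcop : Nat.Coprime m 4 := by
    have : Nat.Coprime m 2 := Nat.coprime_two_right.2 hodd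
    exact this.pow_right 2
  have hN1 : N.det ^ 4 = 1 → N.det = 1 := by
    intro h4
    have := pow_gcd_eq_one.2 ⟨hNm, h4⟩
    rwa [hcop.gcd_eq_one, pow_one] at this
  rcases (mem_S.1 hh) with ⟨a1, a2, a3, a4⟩ | ⟨a1, a2, a3, a4⟩
  · rw [← hN] at a1 a2 a3 a4
    have hd : N.det = N 0 0 * N 1 1 := by rw [Matrix.det_fin_two, a1, zero_mul, sub_zero]
    have hd1 : N.det = 1 := hN1 (by rw [hd, mul_pow, a3, a4, one_mul])
    obtain ⟨l, hl, hl9⟩ := dec_diag _ a3 _ (hd ▸ hd1)
    apply hl9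
    refine eig h2 hodd ?_
    simp only [g0M, Matrix.mul_apply, Fin.sum_univ_two, a1, a2]
    simpa using hl
  · rw [← hN] at a1 a2 a3 a4
    have hd : N.det = -(N 0 1 * N 1 0) := by rw [Matrix.det_fin_two, a1, zero_mul, zero_sub]
    have hd1 : N.det = 1 := hN1 (by rw [hd, neg_pow, mul_pow, a3, a4]; norm_num)
    obtain ⟨l, hl, hl9⟩ := dec_anti _ a4 _ (hd ▸ hd1)
    apply hl9
    refine eig h2 hodd ?_
    simp only [g0M, Matrix.mul_apply, Fin.sum_univ_two, a1, a2]
    simpa using hl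

end Paige

end Pool.Agent.KS6_71.PG
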