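import Mathlib
import Pool.Agent.KS6_71.PG.Base

set_option autoImplicit false

/-!
# Wreath products, powers and the passage to centralizers of central involutions

Helper file for `Pool.Agent.Results.MP_d5772f_al.AlmostAllCosets`.
-/

namespace Pool.Agent.KS6_71.PG

/-- Every element of the coset `g S` has order divisible by `2 ^ n`. -/
def AllDvd {H : Type} [Group H] (n : ℕ) (S : Subgroup H) (g : H) : Prop :=
  ∀ s ∈ S, 2 ^ n ∣ orderOf (g * s)

/-- `S` is a Sylow `2`-subgroup, in terms of cardinalities. -/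
def Syl {H : Type} [Group H] (S : Subgroup H) : Prop :=
  ∃ a o : ℕ, Odd o ∧ Nat.card S = 2 ^ a ∧ Nat.card H = 2 ^ a * o

lemma Syl.isPGroup {H : Type} [Group H] {S : Subgroup H} (h : Syl S) : IsPGroup 2 S := by
  obtain ⟨a, o, -, h1, -⟩ := h
  exact IsPGroup.of_card h1

lemma Syl.index {H : Type} [Group H] {S : Subgroup H} (h : Syl S) : ¬ 2 ∣ S.index := by
  obtain ⟨a, o, h0, h1, h2⟩ := h
  have h3 := S.index_mul_card
  rw [h1, h2, mul_comm] at h3
  have h4 : S.index = o := Nat.eq_of_mul_eq_mul_left (by positivity) h3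
  rw [h4]
  exact fun h5 => (Nat.not_even_iff_odd.2 h0) (even_iff_two_dvd.2 h5)

lemma syl_of {H : Type} [Group H] [Finite H] {S : Subgroup H} (h1 : IsPGroup 2 S)
    (h2 : ¬ 2 ∣ S.index) : Syl S := by
  obtain ⟨a, ha⟩ := (IsPGroup.iff_card).1 h1
  refine ⟨a, S.index, ?_, ha, ?_⟩
  · rw [← Nat.not_even_iff_odd, even_iff_two_dvd]
    exact h2
  · rw [← S.index_mul_card, ha, mul_comm]

section Wreath

variable {H K : Type} [Group H] [Group K]

/-- The wreath product of subgroups. -/
def wr (S : Subgroup H) (R : Subgroup K) : Subgroup (H ≀ᵣ K) where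
  carrier := {x | (∀ q, x.left q ∈ S) ∧ x.right ∈ R}
  mul_mem' := by
    rintro a b ⟨ha, ha'⟩ ⟨hb, hb'⟩
    exact ⟨fun q => S.mul_mem (ha q) (hb _), R.mul_mem ha' hb'⟩
  one_mem' := ⟨fun _ => S.one_mem, R.one_mem⟩
  inv_mem' := by
    rintro a ⟨ha, ha'⟩
    exact ⟨fun q => S.inv_mem (ha _), R.inv_mem ha'⟩

lemma mem_wr {S : Subgroup H} {R : Subgroup K} {x : H ≀ᵣ K} :
    x ∈ wr S R ↔ (∀ q, x.left q ∈ S) ∧ x.right ∈ R := Iff.rfl

lemma syl_wr [Finite K] {S : Subgroup H} {R : Subgroup K} (hS : Syl S) (hR : Syl R) :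
    Syl (wr S R) := by
  obtain ⟨a, o, h0, h1, h2⟩ := hS
  obtain ⟨b, o', h0', h1', h2'⟩ := hR
  refine ⟨a * Nat.card K + b, o ^ Nat.card K * o', ?_, ?_, ?_⟩
  · exact h0.pow.mul h0'
  · have e : wr S R ≃ (K → S) × R :=
      { toFun := fun x => (fun q => ⟨x.1.left q, x.2.1 q⟩, ⟨x.1.right, x.2.2⟩)
        invFun := fun y => ⟨⟨fun q => (y.1 q).1, y.2.1⟩, ⟨fun q => (y.1 q).2, y.2.2⟩⟩
        left_inv := fun x => rfl
        right_inv := fun y => rfl }
    rw [Nat.card_congr e, Nat.card_prod, Nat.card_fun, h1, h1', pow_add, pow_mul]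
  · rw [RegularWreathProduct.card, h2, mul_pow, pow_add, pow_mul]
    conv_lhs => rw [h2']
    rw [h2']
    ring

/-- The ordered product along an orbit. -/
def along (f : K → H) (κ q : K) : ℕ → H
  | 0 => 1
  | j + 1 => along f κ q j * f ((κ ^ j)⁻¹ * q)

lemma pow_left (x : H ≀ᵣ K) (j : ℕ) (q : K) :
    (x ^ j).left q = along x.left x.right q j ∧ (x ^ j).right = x.right ^ j := by
  induction j with
  | zero => simp [along]
  | succ j ih =>
    rw [pow_succ]
    refine ⟨?_, ?_⟩
    · simp only [RegularWreathProduct.mul_left, Pi.mul_apply, ih.1, along]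
      rw [ih.2]
    · rw [RegularWreathProduct.mul_right, ih.2, pow_succ]

lemma along_mem {S : Subgroup H} {f : K → H} {κ : K} {g : H}
    (h0 : ∃ s ∈ S, f 1 = g * s) (h1 : ∀ q, q ≠ 1 → f q ∈ S) (j : ℕ) (hj : j < orderOf κ) :
    ∃ s ∈ S, along f κ 1 (j + 1) = g * s := by
  induction j with
  | zero =>
    obtain ⟨s, hs, h⟩ := h0
    exact ⟨s, hs, by simp [along, h]⟩
  | succ j ih =>
    obtain ⟨s, hs, h⟩ := ih (by omega)
    have hne : (κ ^ (j + 1))⁻¹ * 1 ≠ 1 := by
      rw [mul_one, inv_ne_one]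
      intro hc
      have := orderOf_le_of_pow_eq_one (Nat.succ_pos j) hc
      omega
    refine ⟨s * f ((κ ^ (j + 1))⁻¹ * 1), S.mul_mem hs (h1 _ hne), ?_⟩
    rw [along, h, mul_assoc]

open Classical in
/-- The element of the wreath product. -/
noncomputable def el (g : H) (k : K) : H ≀ᵣ K := ⟨fun q => if q = 1 then g else 1, k⟩

theorem allDvd_wr [Finite H] [Finite K] {S : Subgroup H} {R : Subgroup K} {g : H} {k : K} {n l : ℕ}
    (hg : AllDvd n S g) (hk : AllDvd l R k) : AllDvd (l + n) (wr S R) (el g k) := by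
  classical
  intro y hy
  set x : H ≀ᵣ K := el g k * y with hx
  set κ : K := x.right with hκ
  have hκ' : κ = k * y.right := rfl
  have h0 : ∃ s ∈ S, x.left 1 = g * s := ⟨y.left (k⁻¹ * 1), hy.1 _, by
    rw [hx]; simp [el]⟩
  have h1 : ∀ q, q ≠ 1 → x.left q ∈ S := by
    intro q hq
    have : x.left q = y.left (k⁻¹ * q) := by
      rw [hx]; simp [el, hq]
    rw [this]
    exact hy.1 _
  have hm : 0 < orderOf κ := orderOf_pos κ
  obtain ⟨s, hs, h2⟩ := along_mem (κ := κ) h0 h1 (orderOf κ - 1) (by omega)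
  rw [Nat.sub_add_cancel hm] at h2
  -- the power of `x`
  have h3 : (x ^ orderOf κ).left 1 = g * s := by
    rw [(pow_left x (orderOf κ) 1).1]
    exact h2
  have h4 : (x ^ orderOf κ).right = 1 := by
    rw [(pow_left x (orderOf κ) 1).2]
    exact pow_orderOf_eq_one κ
  have h5 : 2 ^ n ∣ orderOf (x ^ orderOf κ) := by
    refine (hg s hs).trans ?_
    rw [← h3]
    apply orderOf_dvd_of_pow_eq_one
    generalize x ^ orderOf κ = z at h4
    have h6 : ∀ j : ℕ, (z ^ j).left 1 = (z.left 1) ^ j := by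
      intro j
      rw [(pow_left z j 1).1]
      induction j with
      | zero => simp [along]
      | succ j ih => rw [along, ih, h4]; simp [pow_succ]
    rw [← h6, pow_orderOf_eq_one]
    rfl
  have h7 : orderOf κ ∣ orderOf x := by
    have := orderOf_map_dvd (RegularWreathProduct.rightHom : H ≀ᵣ K →* K) x
    exact this
  have h8 : orderOf (x ^ orderOf κ) = orderOf x / orderOf κ := by
    rw [orderOf_pow, Nat.gcd_eq_right h7]
  have h9 : 2 ^ l ∣ orderOf κ := hk _ hy.2
  rw [h8] at h5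
  have h10 := mul_dvd_mul h9 h5
  rw [Nat.mul_div_cancel' h7] at h10
  rwa [pow_add]

end Wreath

theorem exists_one (n : ℕ) : ∃ (H : Type) (_ : Group H) (_ : Finite H) (S : Subgroup H),
    Syl S ∧ ∃ g, AllDvd n S g := by
  induction n with
  | zero =>
    exact ⟨_, inferInstance, inferInstance, S, syl_of S_pgroup S_index, 1, fun s _ => by simp⟩
  | succ n ih =>
    obtain ⟨H, _, _, S', hS, g, hg⟩ := ih
    refine ⟨H ≀ᵣ GL (Fin 2) (ZMod 37), inferInstance, inferInstance, wr S' S,
      syl_wr hS (syl_of S_pgroup S_index), el g g0, ?_⟩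
    rw [add_comm]
    apply allDvd_wr hg
    intro s hs
    rw [pow_one, ← even_iff_two_dvd, ← Nat.not_odd_iff_even]
    exact no_odd s hs

/-- The power of a subgroup. -/
def pw {H : Type} [Group H] (m : ℕ) (S : Subgroup H) : Subgroup (Fin m → H) :=
  Subgroup.pi Set.univ (fun _ => S)

lemma syl_pw {H : Type} [Group H] (m : ℕ) {S : Subgroup H} (hS : Syl S) :
    Syl (pw m S) := by
  obtain ⟨a, o, h0, h1, h2⟩ := hS
  refine ⟨a * m, o ^ m, h0.pow, ?_, ?_⟩
  · have e : pw m S ≃ (Fin m → S) :=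
      { toFun := fun x i => ⟨x.1 i, x.2 i (Set.mem_univ i)⟩
        invFun := fun y => ⟨fun i => (y i).1, fun i _ => (y i).2⟩
        left_inv := fun x => rfl
        right_inv := fun y => rfl }
    rw [Nat.card_congr e, Nat.card_fun, h1, Nat.card_fin, pow_mul]
  · rw [Nat.card_fun, h2, Nat.card_fin, mul_pow, pow_mul]

lemma allDvd_pw {H : Type} [Group H] {m n : ℕ} {S : Subgroup H} {h : Fin m → H}
    (hh : ∃ i, AllDvd n S (h i)) : AllDvd n (pw m S) h := by
  obtain ⟨i, hi⟩ := hh
  intro s hs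
  refine (hi (s i) (hs i (Set.mem_univ i))).trans ?_
  exact orderOf_map_dvd (Pi.evalMonoidHom (fun _ : Fin m => H) i) (h * s)

theorem exists_many (n : ℕ) (ε : ℝ) (hε : 0 < ε) :
    ∃ (H : Type) (_ : Group H) (_ : Finite H) (S : Subgroup H),
    Syl S ∧ (1 - ε) * Nat.card H ≤ Nat.card {g : H // AllDvd n S g} := by
  classical
  obtain ⟨H, _, _, S, hS, g, hg⟩ := exists_one n
  set c := Nat.card {x : H // ¬ AllDvd n S x} with hc
  set N := Nat.card H with hN
  have hcN : c < N := by
    rw [hc, hN]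
    have h1 : Nat.card {x : H // ¬ AllDvd n S x} < Nat.card H := by
      have := Fintype.ofFinite H
      rw [Nat.card_eq_fintype_card, Nat.card_eq_fintype_card]
      exact Fintype.card_subtype_lt (x := g) (by simpa using hg)
    exact h1
  have hN0 : (0 : ℝ) < N := by exact_mod_cast lt_of_le_of_lt (Nat.zero_le _) hcN
  have hq : (c : ℝ) / N < 1 := by
    rw [div_lt_one hN0]
    exact_mod_cast hcN
  obtain ⟨m, hm⟩ := exists_pow_lt_of_lt_one hε hq
  refine ⟨Fin m → H, inferInstance, inferInstance, pw m S, syl_pw m hS, ?_⟩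
  have h1 : Nat.card (Fin m → H) = N ^ m := by rw [Nat.card_fun, Nat.card_fin]
  -- the complement
  have h2 : Nat.card {x : Fin m → H // ¬ AllDvd n (pw m S) x} ≤ c ^ m := by
    have h3 : c ^ m = Nat.card (Fin m → {x : H // ¬ AllDvd n S x}) := by
      rw [Nat.card_fun, Nat.card_fin]
    rw [h3]
    apply Nat.card_le_card_of_injective
      (fun x : {x : Fin m → H // ¬ AllDvd n (pw m S) x} => fun i =>
        (⟨x.1 i, fun hi => x.2 (allDvd_pw ⟨i, hi⟩)⟩ : {x : H // ¬ AllDvd n S x}))
    intro x y hxy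
    apply Subtype.ext
    funext i
    exact congrArg Subtype.val (congrFun hxy i)
  have h4 : Nat.card {x : Fin m → H // AllDvd n (pw m S) x}
      + Nat.card {x : Fin m → H // ¬ AllDvd n (pw m S) x} = N ^ m := by
    rw [← h1, ← Nat.card_sum]
    exact Nat.card_congr (Equiv.sumCompl _)
  have h5 : (c : ℝ) ^ m ≤ ε * N ^ m := by
    rw [div_pow] at hm
    have hNm : (0 : ℝ) < (N : ℝ) ^ m := by positivity
    exact ((div_lt_iff₀ hNm).1 hm).le
  have h6 : ((Nat.card {x : Fin m → H // AllDvd n (pw m S) x} : ℕ) : ℝ)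
      + ((Nat.card {x : Fin m → H // ¬ AllDvd n (pw m S) x} : ℕ) : ℝ) = (N : ℝ) ^ m := by
    exact_mod_cast h4
  have h7 : ((Nat.card {x : Fin m → H // ¬ AllDvd n (pw m S) x} : ℕ) : ℝ) ≤ (c : ℝ) ^ m := by
    exact_mod_cast h2
  rw [h1]
  push_cast
  linarith

/-- From a Sylow `2`-subgroup `S` of `H` to the centralizer of a central involution. -/
theorem transfer {H : Type} [Group H] [Finite H] (S : Subgroup H) (hS : Syl S) :
    ∃ (G : Type) (_ : Group G) (_ : Finite G) (T : Sylow 2 G) (t : G) (r : G →* H)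
      (B : Type), Nonempty (G ≃ B × H) ∧ (∃ e : G ≃ B × H, ∀ x, (e x).2 = r x) ∧
      orderOf t = 2 ∧ Subgroup.centralizer {t} = (T : Subgroup G) ∧
      (T : Subgroup G) = S.comap r := by
  classical
  have : Finite (H ⧸ S) := inferInstance
  have : Finite (W S) :=
    Finite.of_injective (fun x : W S => (x.left, x.right)) (by
      rintro ⟨a, b⟩ ⟨c, d⟩ h
      simp only [Prod.mk.injEq] at h
      obtain ⟨rfl, rfl⟩ := h
      rfl)
  have : Fact (Nat.Prime 2) := ⟨Nat.prime_two⟩
  let r : W S →* H := SemidirectProduct.rightHom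
  have hr : Function.Surjective r := SemidirectProduct.rightHom_surjective
  have hker : IsPGroup 2 r.ker := by
    rintro ⟨x, hx⟩
    refine ⟨1, ?_⟩
    have hx' : x.right = 1 := hx
    ext1
    simp only [pow_one, Subgroup.coe_pow, Subgroup.coe_one]
    obtain ⟨v, h⟩ := x
    simp only at hx'
    subst hx'
    have : (⟨v, 1⟩ : W S) = SemidirectProduct.inl v := rfl
    rw [this, ← map_pow, ind_sq, map_one]
  have hT : IsPGroup 2 (S.comap r) := hS.isPGroup.comap_of_ker_isPGroup r hker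
  have hTi : ¬ 2 ∣ (S.comap r).index := by
    rw [Subgroup.index_comap_of_surjective _ hr]
    exact hS.index
  have hcent : ∀ x : W S, x * SemidirectProduct.inl (ind S) = SemidirectProduct.inl (ind S) * x ↔
      x.right ∈ S := by
    intro x
    rw [← act_ind_iff S x.right, SemidirectProduct.ext_iff]
    simp only [SemidirectProduct.mul_left, SemidirectProduct.mul_right,
      SemidirectProduct.left_inl, SemidirectProduct.right_inl, mul_one, one_mul, map_one,
      MulAut.one_apply, and_true]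
    rw [mul_comm (ind S) x.left, mul_right_inj]
  let e : W S ≃ V S × H :=
    { toFun := fun x => (x.left, x.right)
      invFun := fun y => ⟨y.1, y.2⟩
      left_inv := fun x => rfl
      right_inv := fun y => rfl }
  refine ⟨W S, inferInstance, inferInstance, hT.toSylow hTi, SemidirectProduct.inl (ind S), r,
    V S, ⟨e⟩, ⟨e, fun x => rfl⟩, ?_, ?_, ?_⟩
  · rw [orderOf_eq_prime_iff]
    refine ⟨?_, ?_⟩
    · rw [← map_pow, ind_sq, map_one]
    · intro h
      have h1 : ind S = 1 := SemidirectProduct.inl_injective (by rw [h, map_one])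
      have h2 := congrFun h1 ((1 : H) : H ⧸ S)
      simp only [ind, if_true, Pi.one_apply] at h2
      exact absurd h2 ofAdd_one_ne
  · rw [IsPGroup.toSylow_coe]
    ext x
    rw [Subgroup.mem_centralizer_singleton_iff]
    exact hcent x
  · rw [IsPGroup.toSylow_coe]

end Pool.Agent.KS6_71.PG
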